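import Pool.Agent.Y271.CP.Torus

/-!
# The `C^r` closing lemma for arbitrary diffeomorphisms times (limits of) periodic diffeomorphisms

`V n = ℝⁿ`, `DiffM n N r = Diff^r(N)`, `strongTop n N r` is its strong (Whitney) `C^r` topology (the
usual one, `N` being compact), `IsRec F z`: `z` is recurrent, i.e. `m ↦ F^m z` is not a homeomorphism
of `ℤ` onto its image, `IsPer G z`: `z` is periodic (`Pool/Agent/H718R2/G0.lean`).

`ProdDiffeo m k n M Y N`: smooth diffeomorphisms `Θ : M × Y → N`, `atP Θ x y = Θ (x, y)`;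
`ProdPer Θ F x y`: for some set `L ⊆ M` which contains `x`, `F (Θ (l, y')) = Θ (f l, h y')` for all
`l ∈ L` and `y' ∈ Y`, where `f : L → L` is a homeomorphism for which `x` is recurrent, `h` is a smooth
diffeomorphism of `Y`, and `y` is in the closure of the interior of the set of the periodic points of `h`
(`Pool/Agent/Y271/CP/Defs.lean`).
-/

set_option autoImplicit false

open scoped Manifold ContDiff Topology

namespace Pool.Agent.Results.MP_1e8d1a_an.ArbitraryTimesPeriodic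

open Pool.Agent.H718R2.G Pool.Agent.Y271.CP

/-- Let `N` be a closed manifold, `Θ : M × Y → N` a smooth diffeomorphism with `dim Y = k ≥ 2`,
`1 ≤ r ≤ ∞` and `F ∈ Diff^r(N)`. Suppose that `F` is a `C^r` limit of diffeomorphisms `F'` (for example
`F' = F`) which on `L × Y`, for an invariant set `L ⊆ M`, are products `f × h`, where

* `f : L → L` is an arbitrary homeomorphism for which `x ∈ L` is recurrent, and
* `h` is a smooth diffeomorphism of `Y`, and `y` is in the closure of the interior of the set of the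
  periodic points of `h` (for example `h` has finite order, or `h = id` near `y`).

Then the conclusion of the `C^r` closing lemma holds for `F` at `Θ (x, y)`: every `C^r` neighbourhood of
`F` contains a diffeomorphism `G` for which this point is periodic. -/
theorem result {m k n : ℕ} (hk : 2 ≤ k) {M : Type*} [TopologicalSpace M] [ChartedSpace (V m) M]
    {Y : Type*} [TopologicalSpace Y] [T2Space Y] [ChartedSpace (V k) Y] [IsManifold (𝓡 k) ∞ Y]
    {N : Type*} [TopologicalSpace N] [T2Space N] [CompactSpace N]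
    [ChartedSpace (V n) N] [IsManifold (𝓡 n) ∞ N] (r : ℕ∞) (hr : 1 ≤ r)
    (Θ : ProdDiffeo m k n M Y N) (F : DiffM n N r) (x : M) (y : Y)
    (h : ∀ U : Set (DiffM n N r), IsOpen[strongTop n N r] U → F ∈ U → ∃ F' ∈ U, ProdPer Θ F' x y) :
    ∀ U : Set (DiffM n N r), IsOpen[strongTop n N r] U → F ∈ U → ∃ G ∈ U, IsPer G (atP Θ x y) :=
  Pool.Agent.Y271.CP.main hk r hr Θ F x y h

/-- Special case `F = f × id_Y`, `dim Y ≥ 2`, `f` arbitrary: the closing lemma holds for `F` at all of its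
recurrent points. -/
theorem times_identity {m k n : ℕ} (hk : 2 ≤ k) {M : Type*} [TopologicalSpace M]
    [ChartedSpace (V m) M]
    {Y : Type*} [TopologicalSpace Y] [T2Space Y] [ChartedSpace (V k) Y] [IsManifold (𝓡 k) ∞ Y]
    {N : Type*} [TopologicalSpace N] [T2Space N] [CompactSpace N]
    [ChartedSpace (V n) N] [IsManifold (𝓡 n) ∞ N] (r : ℕ∞) (hr : 1 ≤ r)
    (Θ : Diffeomorph ((𝓡 m).prod (𝓡 k)) (𝓡 n) (M × Y) N ∞) (F : DiffM n N r) (f : M ≃ₜ M)
    (hF : ∀ (l : M) (y : Y), F (Θ (l, y)) = Θ (f l, y)) (x : M) (y : Y)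
    (hrec : IsRec F.toHomeomorph (Θ (x, y))) :
    ∀ U : Set (DiffM n N r), IsOpen[strongTop n N r] U → F ∈ U → ∃ G ∈ U, IsPer G (Θ (x, y)) := by
  obtain ⟨e, he⟩ : ∃ e : (Set.univ : Set M) ≃ₜ M, ∀ l, e l = l.1 := ⟨Homeomorph.Set.univ M, fun _ => rfl⟩
  have he' : ∀ l : M, ((e.symm l : (Set.univ : Set M)) : M) = l := by
    intro l
    rw [← he, e.apply_symm_apply]
  have hF' : ∀ (l : (Set.univ : Set M)) (y' : Y), F (Θ ((l : M), y')) =
      Θ (((e.trans (f.trans e.symm)) l : M), Diffeomorph.refl (𝓡 k) Y ∞ y') := by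
    intro l y'
    rw [hF]
    show Θ (f l.1, y') = Θ ((e.symm (f (e l)) : M), y')
    rw [he', he]
  refine result hk r hr Θ F x y fun U _ hFU => ⟨F, hFU, Set.univ, e.trans (f.trans e.symm),
    Diffeomorph.refl (𝓡 k) Y ∞, Set.mem_univ x, ?_, ?_, hF'⟩
  · exact Pool.Agent.Y271.CP.isRec_fst _ Θ F (Diffeomorph.refl (𝓡 k) Y ∞) hF' ⟨x, Set.mem_univ x⟩ y
      hrec
  · have h1 : Function.periodicPts (Diffeomorph.refl (𝓡 k) Y ∞) = Set.univ :=
      Set.eq_univ_of_forall fun y' => ⟨1, one_pos, rfl⟩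
    rw [h1, interior_univ, closure_univ]
    exact Set.mem_univ y

/-- Special case `F = f × h` on `L × Y`, where `f : L → L` is arbitrary and `h` is an element of a compact
Lie group acting smoothly on `Y` (for example `h` is an isometry of a closed manifold, `dim Y ≥ 2`):
a smooth action `φ` of `ℝ^d` which is trivial on `ℤ^d`, a diffeomorphism `h` which commutes with it, and
`h^q = φ_θ` for some `q ≥ 1` and `θ ∈ ℝ^d`. The closing lemma holds for `F` at all recurrent points in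
`L × Y`. -/
theorem times_isometry {m k n d : ℕ} (hk : 2 ≤ k) {M : Type*} [TopologicalSpace M]
    [ChartedSpace (V m) M]
    {Y : Type*} [TopologicalSpace Y] [T2Space Y] [ChartedSpace (V k) Y] [IsManifold (𝓡 k) ∞ Y]
    {N : Type*} [TopologicalSpace N] [T2Space N] [CompactSpace N]
    [ChartedSpace (V n) N] [IsManifold (𝓡 n) ∞ N] (r : ℕ∞) (hr : 1 ≤ r)
    (Θ : Diffeomorph ((𝓡 m).prod (𝓡 k)) (𝓡 n) (M × Y) N ∞) (F : DiffM n N r)
    (φ : V d → Y → Y)
    (hφ : ContMDiff ((𝓡 d).prod (𝓡 k)) (𝓡 k) ∞ (fun p : V d × Y => φ p.1 p.2))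
    (hφ0 : ∀ y, φ 0 y = y) (hφadd : ∀ s t y, φ (s + t) y = φ s (φ t y))
    (hφint : ∀ s : V d, (∀ i, ∃ c : ℤ, s i = c) → ∀ y, φ s y = y)
    (h : Diffeomorph (𝓡 k) (𝓡 k) Y Y ∞) (hcomm : ∀ s y, h (φ s y) = φ s (h y))
    (q : ℕ) (hq : 1 ≤ q) (θ : V d) (hhq : ∀ y, h^[q] y = φ θ y)
    (L : Set M) (f : L ≃ₜ L) (hF : ∀ (l : L) (y : Y), F (Θ ((l : M), y)) = Θ ((f l : M), h y))
    (x : L) (y : Y) (hrec : IsRec F.toHomeomorph (Θ ((x : M), y))) :
    ∀ U : Set (DiffM n N r), IsOpen[strongTop n N r] U → F ∈ U →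
      ∃ G ∈ U, IsPer G (Θ ((x : M), y)) :=
  Pool.Agent.Y271.CP.compact_action hk r hr Θ F φ ⟨hφ, hφ0, hφadd⟩ hφint h hcomm q hq θ hhq L f hF
    x y hrec

end Pool.Agent.Results.MP_1e8d1a_an.ArbitraryTimesPeriodic
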