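import Pool.Agent.Y368.GG.Main
import Pool.Agent.Y504.CO.DicF

/-!
# Generic `C^r` diffeomorphisms: the gap between `Ω(f)` and the closure of the periodic points

`DiffM n N r` is `Diff^r(N)` and `strongTop n N r` its strong (Whitney) `C^r` topology (the usual one,
`N` being compact) (`Pool/Agent/H718R2/G0.lean`). `Omega f`: the nonwandering set, `Per f`: the periodic
points (`Pool/Agent/TH80/OMS/Defs.lean`, `SymDefs.lean`). `Rec f`: the recurrent points, `x` is a limit
of `f^k(x)`, `k ≥ 1` (`Pool/Agent/Y504/CO/Stm5.lean`). `BaireSet n N r S`: `S` contains a countable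
intersection of open dense subsets of `Diff^r(N)` (`Pool/Agent/Y504/CO/KSG.lean`).
`IsHyperbolicPer n f p`: `p` is periodic, and no eigenvalue of the derivative of `f^m` at `p` has
modulus one when `f^m(p) = p`, `m ≥ 1` (`Pool/Agent/Y504/CO/Rob.lean`). `FiniteNoCycle f`: `Ω(f)` is
finite and there is no cycle of periodic orbits (`Pool/Agent/TH80/OMS/CycDefs.lean`).
`Closable n N r f z`: every neighbourhood of `f` in `Diff^r(N)` contains some `g` for which `z` is
periodic (`Pool/Agent/W564/SC/Defs.lean`).
`ChartLip n N`: the distance of `N` is compatible with the smooth structure: every chart `χ` of the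
smooth structure with `χ z = 0` whose target contains the closed unit ball is bi-Lipschitz on the ball
`‖χ ·‖ ≤ 1/2` (for instance a Riemannian distance; `Pool/Agent/Y368/CL/Met.lean`).
`LipTo f m Γ`: `Γ` is a Lipschitz constant of `f^i` for all `|i| ≤ 2m` (`Pool/Agent/Y368/CL/Grow.lean`).

Joint work of two projects: project CO (plan: helper504; Lean: helpers 3, 38, 67, 96, 117, 255, 284,
286, 306, 329, 333, 417, 419, 429, 450, 504, 600, 614, 675, 739, 801, 810, 832, 863, 917, 921, 929,
930, 948, 987) for the isolated nonwandering points, the perturbations, the Baire arguments and the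
dichotomy; returns versus growth (helper368) on top of project SC (helpers 564, 19, 131, 357, 451, 509,
723, 878, 917, 699, 428, 683, 923, 271, 74, 782, 597).
-/

set_option autoImplicit false

open scoped Manifold ContDiff Topology

universe u

namespace Pool.Agent.Results.MP_1e8d1a_an.GenericGaps

open Pool.Agent.H718R2.G Pool.Agent.TH80.OMS Pool.Agent.W564.SC Pool.Agent.Y368.CL
  Pool.Agent.Y504.CO Pool.Agent.Y504.CO.KSG

/-- Every nonempty relatively open subset of `Ω(f) ∖ closure(Per(f))` is uncountable. -/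
def UncountableGap {N : Type u} [TopologicalSpace N] (f : N → N) : Prop :=
  ∀ O : Set N, IsOpen O → (O ∩ (Omega f \ closure (Per f))).Nonempty →
    ¬ (O ∩ (Omega f \ closure (Per f))).Countable

/-- The periodic points of `f` are hyperbolic, and if at most countably many recurrent points are
not periodic, then `Ω(f)` is finite, consists of hyperbolic periodic points, and has no cycles. -/
def Dichotomy (n : ℕ) {N : Type u} [TopologicalSpace N] [ChartedSpace (V n) N] {r : ℕ∞}
    (f : DiffM n N r) : Prop :=
  (∀ p ∈ Per f, IsHyperbolicPer n f p) ∧ ((Rec f \ Per f).Countable →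
    FiniteNoCycle f ∧ ∀ p ∈ Omega f, IsHyperbolicPer n f p)

/-- `z` is an isolated point of `Ω(f)`. -/
def IsIsolated {N : Type u} [TopologicalSpace N] (f : N → N) (z : N) : Prop :=
  z ∈ Omega f ∧ ∃ O : Set N, IsOpen O ∧ z ∈ O ∧ ∀ y ∈ Omega f, y ∈ O → y = z

/-- Returns near `z` are at most polynomially fast in the growth of the iterates of `f`: if
`Λ m ≥ m` is a Lipschitz constant of all `f^i`, `|i| ≤ 2m`, then for some finite order `k ≤ r`, some
`c > 0` and all `y` close to `z`: `dist (f^m y) y ≥ c / Λ(m)^b(k)` for all `m ≥ 1`. -/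
def SlowAt {n : ℕ} {N : Type u} [MetricSpace N] [ChartedSpace (V n) N] {r : ℕ∞} (b : ℕ → ℕ)
    (f : DiffM n N r) (z : N) : Prop :=
  ∀ Λ : ℕ → ℝ, (∀ m, LipTo f m (Λ m)) → (∀ m : ℕ, (m : ℝ) ≤ Λ m) →
    ∃ k : ℕ, (k : ℕ∞) ≤ r ∧ ∃ W ∈ 𝓝 z, ∃ c : ℝ, 0 < c ∧
      ∀ y ∈ W, ∀ m : ℕ, 1 ≤ m → c / (Λ m) ^ b k ≤ dist (f^[m] y) y

/-- There are UNIVERSAL exponents `a n k` such that the following holds for every closed
`n`-manifold `N` and `1 ≤ r ≤ ∞` (slow returns: `r ≥ 2`, `N` with a compatible distance).
GENERIC `f ∈ Diff^r(N)` (a Baire set): every point at which `f` can be `C^r`-closed is a limit of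
periodic points; every nonempty relatively open part of `Ω(f) ∖ closure(Per(f))` is uncountable;
if at most countably many recurrent points are not periodic, then `Ω(f)` is finite and hyperbolic;
near every point outside `closure(Per(f))` returns are slow.
EVERY `f ∈ Diff^r(N)`: `f` can be closed at every isolated point of `Ω(f)`; at every point `z`,
either `f` can be closed or returns near `z` are slow. -/
theorem result : ∃ a : ℕ → ℕ → ℕ, ∀ (n : ℕ) (N : Type u) [MetricSpace N] [CompactSpace N]
    [ChartedSpace (V n) N] [IsManifold (𝓡 n) ∞ N] (r : ℕ∞), 1 ≤ r →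
    BaireSet n N r {f | (∀ z, Closable n N r f z → z ∈ closure (Per f)) ∧ UncountableGap f ∧
      Dichotomy n f ∧ (ChartLip n N → 2 ≤ r → ∀ z, z ∉ closure (Per f) → SlowAt (a n) f z)} ∧
    ∀ f : DiffM n N r, (∀ z, IsIsolated f z → Closable n N r f z) ∧
      (ChartLip n N → 2 ≤ r → ∀ z, Closable n N r f z ∨ SlowAt (a n) f z) := by
  obtain ⟨a, ha⟩ := Pool.Agent.Y368.CL.main.{u}
  refine ⟨a, fun n N _ _ _ _ r hr => ?_⟩
  have key : ∀ f : DiffM n N r, ChartLip n N → 2 ≤ r → ∀ z, Closable n N r f z ∨
      SlowAt (a n) f z := by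
    intro f hN h2 z
    by_cases hz : Closable n N r f z
    · exact Or.inl hz
    · right
      intro Λ h3 h4
      exact (ha n N hN r h2 f Λ h3 h4 z).resolve_left hz
  refine ⟨?_, fun f => ⟨fun z hz => Pool.Agent.Y368.GG.closable_iso hr f z hz.1 hz.2, key f⟩⟩
  have hB : BaireSet n N r {f | ∀ z, Closable n N r f z → z ∈ closure (Per f)} :=
    Pool.Agent.Y368.GG.generic_closable (n := n) (N := N) r hr
  refine (hB.inter (DicF.generic_dichotomy n N r hr)).mono ?_
  rintro f ⟨h3, h4⟩
  refine ⟨h3, Pool.Agent.Y368.GG.uncountable_of_closable hr f h3, h4, ?_⟩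
  intro hN h5 z hz
  exact (key f hN h5 z).resolve_left fun h => hz (h3 z h)

end Pool.Agent.Results.MP_1e8d1a_an.GenericGaps
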