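import Pool.Agent.Y251.CL.FinA
import Pool.Agent.Y770.CL.Stra
import Pool.Agent.Y640.CLA.NCA

/-!
# The `C^{1+α}` closing lemma, `α > 0`, and the `C^r` closing lemma, `r ≥ 2`, fail in every closed
half-space at infinity

`V n` is `ℝⁿ`, `DiffM n M r` is `Diff^r(M)`, `strongTop n M r` is the strong (Whitney) `C^r` topology,
`StrongData`, `strongNbhd` are the data and the basic neighbourhoods of this topology, `IsRec f x`
says that `x` is recurrent (`m ↦ f^m(x)` is not a homeomorphism of `ℤ` onto its image), `IsPer g x`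
that `x` is periodic, `Closing n M r` is the statement of the closing lemma (question Q1) for `M` and
`r` (all in `Pool/Agent/H718R2/G0.lean`).
-/

open scoped Manifold ContDiff Topology
open Set

namespace Pool.Agent.Results.MP_1e8d1a_an.NonclosingHalfSpaces

open Pool.Agent.H718R2.G

/-- `y` is a limit point of its forward orbit, or periodic -/
def Returns {M : Type*} [TopologicalSpace M] (f : M → M) (y : M) : Prop :=
  ∀ W ∈ 𝓝 y, ∃ k : ℕ, 1 ≤ k ∧ f^[k] y ∈ W

/-- `g` has no periodic point and no point with relatively compact forward orbit in `S` -/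
def Unbounded {M : Type*} [TopologicalSpace M] (S : Set M) (g : M → M) : Prop :=
  ∀ y ∈ S, ¬ IsPer g y ∧ ¬ IsCompact (closure (range fun k : ℕ => g^[k] y))

section
variable {n : ℕ} {M : Type*} [TopologicalSpace M] [ChartedSpace (V n) M]

/-- the map `M → M` underlying a diffeomorphism -/
noncomputable def fn {r : ℕ∞} (f : DiffM n M r) : M → M := f

/-- a `C^∞` diffeomorphism as an element of `Diff^r(M)` -/
def ofTop (f : DiffM n M ⊤) (r : ℕ∞) : DiffM n M r where
  toEquiv := f.toEquiv
  contMDiff_toFun := f.contMDiff_toFun.of_le (WithTop.coe_le_coe.mpr le_top)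
  contMDiff_invFun := f.contMDiff_invFun.of_le (WithTop.coe_le_coe.mpr le_top)

/-- `G` in the charts of the `i`-th piece of `D` -/
def inChart (D : StrongData n M) (i : D.ι) (G : M → M) : V n → V n := D.ψ i ∘ G ∘ (D.φ i).symm

/-- the difference of the derivatives of `G` and `f` at the point `y`, in the charts of the `i`-th
piece of `D` -/
noncomputable def dDiff (D : StrongData n M) (i : D.ι) (f G : M → M) (y : M) : V n →L[ℝ] V n :=
  fderiv ℝ (inChart D i G) (D.φ i y) - fderiv ℝ (inChart D i f) (D.φ i y)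

/-- `G` is `C^{1+α}`-close to `f` on the compact sets `D.K i`: values and derivatives differ by less
than `D.ε i`, and the difference of the derivatives is `α`-Hölder with constant `D.ε i` on `D.K i` (in
the charts of `D`) -/
def NearA (α : ℝ) (D : StrongData n M) (f G : M → M) : Prop :=
  ∀ i, (∀ x ∈ D.K i, G x ∈ (D.ψ i).source ∧
      ‖inChart D i G (D.φ i x) - inChart D i f (D.φ i x)‖ < D.ε i ∧ ‖dDiff D i f G x‖ < D.ε i) ∧
    ∀ x ∈ D.K i, ∀ y ∈ D.K i,
      ‖dDiff D i f G x - dDiff D i f G y‖ ≤ D.ε i * ‖D.φ i x - D.φ i y‖ ^ α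

/-- for every map `G : M → M` which is `C¹` inside `H`, arbitrary outside `H`, and `C^{1+α}`-close to
`f` in the sense of `D`, no compact set `C` with `G(C) ⊆ C` meets `H'`; in particular no `g ∈ Diff¹(M)`
which is `C^{1+α}`-close to `f` has a point with relatively compact forward orbit in `H'` -/
def NoCompact (α : ℝ) (H H' : Set M) (f : M → M) (D : StrongData n M) : Prop :=
  (∀ G : M → M, ContMDiffOn (𝓡 n) (𝓡 n) 1 G (interior H) → NearA α D f G →
    ∀ C : Set M, IsCompact C → MapsTo G C C → Disjoint C H') ∧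
  ∀ g : DiffM n M 1, NearA α D f (fn g) → Unbounded H' (fn g)

/-- the set of all `g ∈ Diff^r(M)` which are `C²`-close to `f` in the sense of `D` is open in the strong
topology, contains `f`, and no such `g` has a periodic point, or a point with relatively compact
forward orbit, in `H'` -/
def NoBounded (H' : Set M) (D : StrongData n M) {r : ℕ∞} (f : DiffM n M r) : Prop :=
  IsOpen[strongTop n M r] (strongNbhd D 2 f) ∧ f ∈ strongNbhd D 2 f ∧
    ∀ g ∈ strongNbhd D 2 f, Unbounded H' (fn g)

end

/-- `H` is a properly embedded closed half-space of `M` -/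
def IsHalfSpace (n : ℕ) [NeZero n] {M : Type*} [TopologicalSpace M] [ChartedSpace (V n) M]
    (H : Set M) : Prop :=
  ∃ φ ∈ IsManifold.maximalAtlas (𝓡 n) ∞ M, {v : V n | 0 ≤ v 0} ⊆ φ.target ∧
    IsClosed (φ.symm '' {v : V n | 0 ≤ v 0}) ∧ H = φ.symm '' {v : V n | 0 ≤ v 0}

/-- The `C^{1+α}` closing lemma for `M`: for every `C^∞` diffeomorphism `f` of `M`, every recurrent
point `x` of `f` and every strong `C^{1+α}`-neighbourhood of `f` there is a `C¹` diffeomorphism `g` in
this neighbourhood for which `x` is periodic. (For `α = 0` this is Pugh's closing lemma.) -/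
def ClosingA (n : ℕ) (M : Type*) [TopologicalSpace M] [ChartedSpace (V n) M] (α : ℝ) : Prop :=
  ∀ (f : DiffM n M ⊤) (x : M), IsRec f.toHomeomorph x → ∀ D : StrongData n M,
    NearA α D (fn f) (fn f) → ∃ g : DiffM n M 1, NearA α D (fn f) (fn g) ∧ IsPer (fn g) x

/-- Let `M` be a smooth manifold (Hausdorff, second countable, without boundary) of dimension `n ≥ 3`.

(1) Let `0 < α ≤ 1`, `H` any properly embedded closed half-space of `M` and `g₀` any `C^∞`
diffeomorphism of `M` which is the identity on `H`. There are a `C^∞` diffeomorphism `f` of `M` with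
`f = g₀` off `H`, a properly embedded closed half-space `H' ⊆ H`, a recurrent point `x` of `f` in the
interior of `H'`, and data `D` on compact subsets of `H` such that: the recurrent points of `f` in
`H'` are uncountable; for every map `G : M → M` which is `C¹` inside `H`, arbitrary (even
discontinuous) outside `H`, and `C^{1+α}`-close to `f` in the sense of `D`, no compact set `C` with
`G(C) ⊆ C` meets `H'`; no `g ∈ Diff¹(M)` which is `C^{1+α}`-close to `f` in the sense of `D` has a
periodic point, or a point with relatively compact forward orbit, in `H'`; and for every `r ≥ 2`,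
`r = ∞` included, the same holds for all `g` in a neighbourhood of `f` in `Diff^r(M)` with the strong
`C^r` topology (given by `C²`-closeness in the sense of `D`).

(2) If `M` has a noncompact component, then for every compact `K ⊆ M` there is a properly embedded
closed half-space `H` disjoint from `K`.

(3) If `M` has a noncompact component, then the `C^{1+α}` closing lemma is false on `M` for every
`α ∈ (0, 1]`, and the `C^r` closing lemma is false on `M` for every `r ≥ 2`, `r = ∞` included. -/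
theorem result (n : ℕ) [NeZero n] (hn : 3 ≤ n) (M : Type*) [TopologicalSpace M] [T2Space M]
    [SecondCountableTopology M] [ChartedSpace (V n) M] [IsManifold (𝓡 n) ∞ M] :
    (∀ (α : ℝ) (H : Set M) (g₀ : DiffM n M ⊤), 0 < α → α ≤ 1 → IsHalfSpace n H →
      (∀ y ∈ H, fn g₀ y = y) →
      ∃ (f : DiffM n M ⊤) (H' : Set M) (x : M) (D : StrongData n M),
        (∀ y ∉ H, fn f y = fn g₀ y) ∧ IsHalfSpace n H' ∧ H' ⊆ H ∧ x ∈ interior H' ∧
        IsRec f.toHomeomorph x ∧ Returns (fn f) x ∧ ¬ {y | y ∈ H' ∧ Returns (fn f) y}.Countable ∧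
        (∀ i, D.K i ⊆ H) ∧ NearA α D (fn f) (fn f) ∧ NoCompact α H H' (fn f) D ∧
        ∀ r : ℕ∞, 2 ≤ r → NoBounded H' D (ofTop f r)) ∧
    (∀ (p : M) (K : Set M), ¬ IsCompact (connectedComponent p) → IsCompact K →
      ∃ H : Set M, IsHalfSpace n H ∧ Disjoint H K) ∧
    ((∃ p : M, ¬ IsCompact (connectedComponent p)) →
      (∀ α : ℝ, 0 < α → α ≤ 1 → ¬ ClosingA n M α) ∧ ∀ r : ℕ∞, 2 ≤ r → ¬ Closing n M r) := by
  have key : ∀ (α : ℝ) (H : Set M) (g₀ : DiffM n M ⊤), 0 < α → α ≤ 1 → IsHalfSpace n H →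
      (∀ y ∈ H, fn g₀ y = y) →
      ∃ (f : DiffM n M ⊤) (H' : Set M) (x : M) (D : StrongData n M),
        (∀ y ∉ H, fn f y = fn g₀ y) ∧ IsHalfSpace n H' ∧ H' ⊆ H ∧ x ∈ interior H' ∧
        IsRec f.toHomeomorph x ∧ Returns (fn f) x ∧ ¬ {y | y ∈ H' ∧ Returns (fn f) y}.Countable ∧
        (∀ i, D.K i ⊆ H) ∧ NearA α D (fn f) (fn f) ∧ NoCompact α H H' (fn f) D ∧
        ∀ r : ℕ∞, 2 ≤ r → NoBounded H' D (ofTop f r) := by
    intro α H g₀ h0 h1 hH hg₀
    obtain ⟨f, H', x, D, a1, a2, a3, a4, a5, a6, a7, a8, a9, -, a11, a12, a13⟩ :=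
      Pool.Agent.Y251.CL.mainA Pool.Agent.Y770.CL.stra h0 h1 (Pool.Agent.Y640.CLA.nonClosingA h0 h1 n hn) hH hg₀
    exact ⟨f, H', x, D, a1, a2, a3, a4, a5, a6, a7, a8, a9, ⟨a11, a12⟩, a13⟩
  refine ⟨key, fun p K hp hK => Pool.Agent.Y251.CL.exists_half hp hK, ?_⟩
  rintro ⟨p, hp⟩
  obtain ⟨H, hH, -⟩ := Pool.Agent.Y251.CL.exists_half (n := n) hp isCompact_empty
  refine ⟨fun α h0 h1 hcl => ?_, fun r hr hcl => ?_⟩
  · obtain ⟨f, H', x, D, -, -, -, hx, hrec, -, -, -, hf, h, -⟩ :=
      key α H (Diffeomorph.refl (𝓡 n) M ∞) h0 h1 hH (fun y _ => rfl)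
    obtain ⟨g, hg, hper⟩ := hcl f x hrec D hf
    exact (h.2 g hg x (interior_subset hx)).1 hper
  · obtain ⟨f, H', x, D, -, -, -, hx, hrec, -, -, -, -, -, h⟩ :=
      key 1 H (Diffeomorph.refl (𝓡 n) M ∞) one_pos le_rfl hH (fun y _ => rfl)
    obtain ⟨hU, hfU, hg⟩ := h r hr
    obtain ⟨g, hgU, hper⟩ := hcl (ofTop f r) x hrec _ hU hfU
    exact (hg g hgU x (interior_subset hx)).1 hper

end Pool.Agent.Results.MP_1e8d1a_an.NonclosingHalfSpaces
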