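import Pool.Agent.Y368.SLD.Cor

/-!
# The `C^r` closing lemma at limits of periodic homogeneous submanifolds `SL(d, ℝ) / Γ`, all `d ≥ 2`

`V n = ℝⁿ`, `DiffM n N r = Diff^r(N)`, `strongTop n N r` is its strong (Whitney) `C^r` topology (the
usual one, `N` being compact), `IsPer G z`: `z` is periodic for `G` (`Pool/Agent/H718R2/G0.lean`);
`ClosableAt n N r F z`: every neighbourhood of `F` in `Diff^r(N)` contains some `G` for which `z` is
periodic, `IsTorusAct e n N R`: `R` is a smooth action of `ℝᵉ/ℤᵉ` (`Pool/Agent/TH382/QC/Defs.lean`);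
`SLd d` is the group `SL(d, ℝ)`.

From `Pool/Agent/Y368/SLD/Defs.lean`:
* `IsSLdAction d n N O act`: smooth action of `SL(d, ℝ)` on the open set `O ⊆ N`;
* `IsLatticePt act y`: the stabiliser `Γ` of `y` is discrete and cocompact;
* `IsSLdPer d n N F y`: `y` lies on a periodic homogeneous submanifold: `SL(d, ℝ)` acts smoothly on an
  open set containing `y`, `C = SL(d, ℝ) y ≅ SL(d, ℝ) / Γ` with `Γ` discrete and cocompact, `F^m(C) = C`,
  the sets `F^i(C)`, `0 < i < m`, do not meet `C`, and `F^m` is on `C` the translation by some (ARBITRARY)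
  `h ∈ SL(d, ℝ)`, possibly composed with a map of finite order which commutes with the action. Nothing is
  required of `F` elsewhere.

The last three theorems are special cases: all translations of `SL(d, ℝ) / Γ`, cocycle extensions over
maps which can be closed (`Comm ρ f`: `f` commutes with the action `ρ`; `IsSkew ρ A F₀ F`:
`F y = A(y) · F₀(y)` with `A` invariant under the action and `Comm ρ F₀`; `EqClosable d n N r ρ F₀ z`:
`F₀` can be closed at `z` by maps which commute with the action), and quasi-periodic cocycles, for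
example `F (x, g Γ) = (x + α, A(x) g Γ)` on `𝕋ᵉ × SL(d, ℝ) / Γ` for all smooth
`A : 𝕋ᵉ → SL(d, ℝ)`, whatever their Lyapunov exponents, at all points.
-/

set_option autoImplicit false

open scoped Manifold ContDiff Topology

namespace Pool.Agent.Results.MP_1e8d1a_an.SLdHomogeneous

open Pool.Agent.H718R2.G Pool.Agent.TH382.QC Pool.Agent.Y368.SLD

/-- Let `N` be a closed manifold, `F ∈ Diff^r(N)` (`0 ≤ r ≤ ∞`) and `z ∈ N`. Suppose that arbitrarily
`C^r`-close to `F` there are diffeomorphisms `F'` (for example `F' = F`) for which `z` is a limit of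
points lying on periodic homogeneous submanifolds `SL(d, ℝ) / Γ`, `d ≥ 2`, `Γ` discrete and cocompact, on
which the return map is a translation. Then the conclusion of the `C^r` closing lemma holds for `F` at
`z`. -/
theorem result {n : ℕ} {N : Type*} [TopologicalSpace N] [T2Space N] [CompactSpace N]
    [ChartedSpace (V n) N] [IsManifold (𝓡 n) ∞ N] (r : ℕ∞) (F : DiffM n N r) (z : N)
    (h : ∀ U : Set (DiffM n N r), IsOpen[strongTop n N r] U → F ∈ U →
      ∃ F' ∈ U, z ∈ closure {y | ∃ d : ℕ, 2 ≤ d ∧ IsSLdPer d n N F' y}) :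
    ∀ U : Set (DiffM n N r), IsOpen[strongTop n N r] U → F ∈ U → ∃ G ∈ U, IsPer G z :=
  main F z h

/-- Special case: cocycle extensions `F y = A(y) · F₀(y)` of a map `F₀` which can be closed at `z` by
maps commuting with the action. -/
theorem cocycle_extension {d n : ℕ} (hd : 2 ≤ d) {N : Type*} [TopologicalSpace N] [T2Space N]
    [CompactSpace N] [ChartedSpace (V n) N] [IsManifold (𝓡 n) ∞ N] (r : ℕ∞) (ρ : SLd d → N → N)
    (hρ : IsSLdAction d n N Set.univ ρ) (A : N → SLd d) (F₀ F : DiffM n N r) (hF : IsSkew ρ A F₀ F)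
    (z : N) (hz : IsLatticePt ρ z) (hc : EqClosable d n N r ρ F₀ z) : ClosableAt n N r F z :=
  extension hd hρ F₀ F hF z hz hc

/-- Special case: quasi-periodic `SL(d, ℝ)`-cocycles, at all points. -/
theorem quasiperiodic_cocycle {d e n : ℕ} (hd : 2 ≤ d) {N : Type*} [TopologicalSpace N] [T2Space N]
    [CompactSpace N] [ChartedSpace (V n) N] [IsManifold (𝓡 n) ∞ N] (r : ℕ∞) (ρ : SLd d → N → N)
    (hρ : IsSLdAction d n N Set.univ ρ) (R : V e → N → N) (hR : IsTorusAct e n N R)
    (hRρ : ∀ a, Comm ρ (R a)) (α : V e) (A : N → SLd d) (F₀ F : DiffM n N r)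
    (hF₀ : ∀ y, F₀ y = R α y) (hF : IsSkew ρ A F₀ F) (z : N) (hz : IsLatticePt ρ z) :
    ClosableAt n N r F z :=
  quasiperiodic hd hρ hR hRρ α F₀ F hF₀ hF z hz

/-- Special case: all elements of `SL(d, ℝ)`, for example the elements of Weyl chamber flows and of
unipotent flows. -/
theorem translation {d n : ℕ} (hd : 2 ≤ d) {N : Type*} [TopologicalSpace N] [T2Space N]
    [CompactSpace N] [ChartedSpace (V n) N] [IsManifold (𝓡 n) ∞ N] (r : ℕ∞) (ρ : SLd d → N → N)
    (hρ : IsSLdAction d n N Set.univ ρ) (g : SLd d) (F : DiffM n N r) (hF : ∀ y, F y = ρ g y)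
    (z : N) (hz : IsLatticePt ρ z) : ClosableAt n N r F z :=
  extension hd hρ (Diffeomorph.refl (𝓡 n) N r) F (A := fun _ => g)
    ⟨fun _ _ => rfl, fun _ _ => rfl, hF⟩ z hz (fun _ _ hU => ⟨_, hU, fun _ _ => rfl, 1, le_rfl, rfl⟩)

end Pool.Agent.Results.MP_1e8d1a_an.SLdHomogeneous
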